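import Pool.Agent.H23.BS

/-!
Helper85's claim (case C, MP_52f71e_al), pure group theory, with Baer-Suzuki from `Pool.Agent.H23.BS`.
-/

set_option autoImplicit false

namespace Pool.Agent.H40.AJ

open Subgroup

variable {M : Type*} [Group M] [Finite M] {p : ℕ} [Fact p.Prime]

/-- Baer-Suzuki for a normal subset any two of whose elements generate a `p`-group -/
theorem bs_set {K : Set M} (hK : ∀ x ∈ K, ∀ g : M, g * x * g⁻¹ ∈ K)
    (hp : ∀ x ∈ K, ∀ y ∈ K, IsPGroup p (closure {x, y})) : IsPGroup p (closure K) := by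
  obtain ⟨P⟩ : Nonempty (Sylow p M) := inferInstance
  refine P.isPGroup'.to_le ?_
  rw [closure_le]
  intro x hx
  have hxp : IsPGroup p (closure {x}) := (hp x hx x hx).to_le (closure_mono (by simp))
  obtain ⟨R, hR⟩ := hxp.exists_le_sylow
  have hxR : x ∈ R := hR (subset_closure (by simp))
  exact Pool.Agent.H23.BS.pair hK hp R P x hx hxR

omit [Finite M] [Fact p.Prime] in
/-- two commuting elements of exponent `p` generate a `p`-group -/
theorem pg_comm {x y : M} (hx : x ^ p = 1) (hy : y ^ p = 1) (h : Commute x y) :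
    IsPGroup p (closure {x, y}) := by
  have key : ∀ g ∈ closure ({x, y} : Set M), ∃ i j : ℤ, g = x ^ i * y ^ j := by
    intro g hg
    induction hg using closure_induction with
    | mem g hg =>
      rcases hg with rfl | hg
      · exact ⟨1, 0, by simp⟩
      · rw [Set.mem_singleton_iff] at hg
        subst hg
        exact ⟨0, 1, by simp⟩
    | one => exact ⟨0, 0, by simp⟩
    | mul a b _ _ ha hb =>
      obtain ⟨i, j, rfl⟩ := ha
      obtain ⟨k, l, rfl⟩ := hb
      refine ⟨i + k, j + l, ?_⟩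
      have h1 : y ^ j * x ^ k = x ^ k * y ^ j := ((h.zpow_zpow k j).eq).symm
      calc x ^ i * y ^ j * (x ^ k * y ^ l) = x ^ i * (y ^ j * x ^ k) * y ^ l := by group
        _ = x ^ i * (x ^ k * y ^ j) * y ^ l := by rw [h1]
        _ = _ := by rw [zpow_add, zpow_add]; group
    | inv a _ ha =>
      obtain ⟨i, j, rfl⟩ := ha
      refine ⟨-i, -j, ?_⟩
      rw [mul_inv_rev, ← zpow_neg, ← zpow_neg]
      exact ((h.zpow_zpow (-i) (-j)).eq).symm
  rintro ⟨g, hg⟩
  refine ⟨1, ?_⟩
  obtain ⟨i, j, rfl⟩ := key g hg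
  apply Subtype.ext
  show (x ^ i * y ^ j) ^ p ^ 1 = 1
  rw [pow_one, (h.zpow_zpow i j).mul_pow, ← zpow_natCast, ← zpow_natCast, ← zpow_mul, ← zpow_mul,
    mul_comm i, mul_comm j, zpow_mul, zpow_mul, zpow_natCast, zpow_natCast, hx, hy]
  simp

/-- the set of the claim -/
def DD (p : ℕ) (E : Set M) : Set M :=
  {x : M | x ^ p = 1 ∧ (∃ z ∈ E, z * x * z = x⁻¹) ∧ ∀ w ∈ E, Commute x (w * x * w)}

omit [Finite M] [Fact p.Prime] in
theorem DD_conj {E : Set M} (hEc : ∀ g : M, ∀ w ∈ E, g * w * g⁻¹ ∈ E) :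
    ∀ x ∈ DD p E, ∀ g : M, g * x * g⁻¹ ∈ DD p E := by
  rintro x ⟨h1, ⟨z, hz, h2⟩, h3⟩ g
  refine ⟨?_, ⟨g * z * g⁻¹, hEc g z hz, ?_⟩, ?_⟩
  · rw [conj_pow, h1]
    group
  · calc g * z * g⁻¹ * (g * x * g⁻¹) * (g * z * g⁻¹) = g * (z * x * z) * g⁻¹ := by group
      _ = (g * x * g⁻¹)⁻¹ := by rw [h2]; group
  · intro w hw
    have h4 := hEc g⁻¹ w hw
    have h5 := h3 _ h4
    have h6 : Commute (g * x * g⁻¹) (g * (g⁻¹ * w * g⁻¹⁻¹ * x * (g⁻¹ * w * g⁻¹⁻¹)) * g⁻¹) := by
      have := h5.eq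
      show g * x * g⁻¹ * (g * (g⁻¹ * w * g⁻¹⁻¹ * x * (g⁻¹ * w * g⁻¹⁻¹)) * g⁻¹) = _
      calc g * x * g⁻¹ * (g * (g⁻¹ * w * g⁻¹⁻¹ * x * (g⁻¹ * w * g⁻¹⁻¹)) * g⁻¹)
          = g * (x * (g⁻¹ * w * g⁻¹⁻¹ * x * (g⁻¹ * w * g⁻¹⁻¹))) * g⁻¹ := by group
        _ = g * ((g⁻¹ * w * g⁻¹⁻¹ * x * (g⁻¹ * w * g⁻¹⁻¹)) * x) * g⁻¹ := by rw [this]
        _ = _ := by group
    have h7 : g * (g⁻¹ * w * g⁻¹⁻¹ * x * (g⁻¹ * w * g⁻¹⁻¹)) * g⁻¹ = w * (g * x * g⁻¹) * w := by
      group
    rwa [h7] at h6

theorem pairD (hp2 : p ≠ 2) {E : Set M} (hE : ∀ w ∈ E, w * w = 1)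
    (hEc : ∀ g : M, ∀ w ∈ E, g * w * g⁻¹ ∈ E) :
    ∀ n : ℕ, ∀ x ∈ DD p E, ∀ y ∈ DD p E, Nat.card (closure ({x, y} : Set M)) = n →
      IsPGroup p (closure ({x, y} : Set M)) := by
  intro n
  induction n using Nat.strong_induction_on with
  | _ n ih =>
  intro x hx y hy hn
  obtain ⟨hxp, ⟨z, hz, hzx⟩, -⟩ := id hx
  obtain ⟨hyp, -, hyE⟩ := id hy
  have hzz := hE z hz
  have iz : z⁻¹ = z := inv_eq_of_mul_eq_one_left hzz
  obtain ⟨m, hm⟩ : Odd p := (Fact.out : p.Prime).odd_of_ne_two hp2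
  have zxk : ∀ k : ℤ, z * x ^ k * z = x ^ (-k) := by
    intro k
    have h1 : z * x ^ k * z⁻¹ = (z * x * z⁻¹) ^ k := (conj_zpow).symm
    rw [iz] at h1
    rw [h1, hzx, inv_zpow, zpow_neg]
  have zxk' : ∀ k : ℤ, z * x ^ k = x ^ (-k) * z := by
    intro k
    rw [← zxk k, mul_assoc, hzz, mul_one]
  -- z x^k lies in E
  have hzk : ∀ k : ℤ, z * x ^ k ∈ E := by
    intro k
    have h1 : (x ^ (-(((m : ℤ) + 1) * k))) * z * (x ^ (-(((m : ℤ) + 1) * k)))⁻¹ = z * x ^ k := by
      have h2 : x ^ (-(((m : ℤ) + 1) * k)) * z = z * x ^ (((m : ℤ) + 1) * k) := (zxk' _).symm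
      rw [h2, ← zpow_neg, neg_neg, mul_assoc, ← zpow_add]
      have h3 : ((m : ℤ) + 1) * k + (((m : ℤ) + 1) * k) = (p : ℤ) * k + k := by
        rw [hm]; push_cast; ring
      rw [h3, zpow_add, zpow_mul, zpow_natCast, hxp, one_zpow, one_mul]
    rw [← h1]
    exact hEc _ z hz
  have hc0 : ∀ k : ℤ, Commute y (z * (x ^ k * y * x ^ (-k)) * z) := by
    intro k
    have h1 := hyE _ (hzk k)
    have h2 : z * x ^ k * y * (z * x ^ k) = z * (x ^ k * y * x ^ (-k)) * z := by
      rw [zxk' k]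
      have h3 : x ^ (-k) * z * y * (x ^ (-k) * z) = x ^ (-k) * z * y * x ^ (-k) * z := by group
      rw [h3, ← zxk' k]
      group
    rwa [h2] at h1
  have hcj : ∀ j k : ℤ, Commute (x ^ j * y * x ^ (-j)) (z * (x ^ k * y * x ^ (-k)) * z) := by
    intro j k
    have h1 := hc0 (k + j)
    have h2 : Commute (x ^ j * y * (x ^ j)⁻¹)
        (x ^ j * (z * (x ^ (k + j) * y * x ^ (-(k + j))) * z) * (x ^ j)⁻¹) := by
      have := h1.eq
      show x ^ j * y * (x ^ j)⁻¹ *
        (x ^ j * (z * (x ^ (k + j) * y * x ^ (-(k + j))) * z) * (x ^ j)⁻¹) = _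
      calc x ^ j * y * (x ^ j)⁻¹ *
            (x ^ j * (z * (x ^ (k + j) * y * x ^ (-(k + j))) * z) * (x ^ j)⁻¹)
          = x ^ j * (y * (z * (x ^ (k + j) * y * x ^ (-(k + j))) * z)) * (x ^ j)⁻¹ := by group
        _ = x ^ j * ((z * (x ^ (k + j) * y * x ^ (-(k + j))) * z) * y) * (x ^ j)⁻¹ := by rw [this]
        _ = _ := by group
    have h3 : x ^ j * (z * (x ^ (k + j) * y * x ^ (-(k + j))) * z) * (x ^ j)⁻¹
        = z * (x ^ k * y * x ^ (-k)) * z := by
      have e1 : x ^ j * z = z * x ^ (-j) := by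
        have := zxk' (-j)
        rw [neg_neg] at this
        exact this.symm
      have e2 : z * (x ^ j)⁻¹ = x ^ j * z := by
        rw [← zpow_neg, zxk' (-j), neg_neg]
      calc x ^ j * (z * (x ^ (k + j) * y * x ^ (-(k + j))) * z) * (x ^ j)⁻¹
          = (x ^ j * z) * (x ^ (k + j) * y * x ^ (-(k + j))) * (z * (x ^ j)⁻¹) := by group
        _ = (z * x ^ (-j)) * (x ^ (k + j) * y * x ^ (-(k + j))) * (z * (x ^ j)⁻¹) := by rw [e1]
        _ = (z * x ^ (-j)) * (x ^ (k + j) * y * x ^ (-(k + j))) * (x ^ j * z) := by rw [e2]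
        _ = z * (x ^ k * y * x ^ (-k)) * z := by group
    rw [h3, ← zpow_neg] at h2
    exact h2
  -- the subgroup E1
  set S : Set M := {g | ∃ k : ℤ, g = x ^ k * y * x ^ (-k)} with hS
  have hyS : y ∈ S := ⟨0, by simp⟩
  have hcom1 : ∀ b ∈ closure S, ∀ j : ℤ, Commute (x ^ j * y * x ^ (-j)) (z * b * z) := by
    intro b hb j
    induction hb using closure_induction with
    | mem b hb =>
      obtain ⟨k, rfl⟩ := hb
      exact hcj j k
    | one =>
      rw [mul_one, hzz]
      exact Commute.one_right _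
    | mul a b _ _ ha hb =>
      have e : z * (a * b) * z = (z * a * z) * (z * b * z) := by
        calc z * (a * b) * z = z * a * 1 * b * z := by group
          _ = z * a * (z * z) * b * z := by rw [hzz]
          _ = _ := by group
      rw [e]
      exact ha.mul_right hb
    | inv a _ ha =>
      have e : z * a⁻¹ * z = (z * a * z)⁻¹ := by
        rw [mul_inv_rev, mul_inv_rev, iz]; group
      rw [e]
      exact ha.inv_right
  have hcom : ∀ a ∈ closure S, ∀ b ∈ closure S, Commute a (z * b * z) := by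
    intro a ha b hb
    induction ha using closure_induction with
    | mem a ha =>
      obtain ⟨j, rfl⟩ := ha
      exact hcom1 b hb j
    | one => exact Commute.one_left _
    | mul a c _ _ ha hc => exact ha.mul_left hc
    | inv a _ ha => exact ha.inv_left
  have hSle : closure S ≤ closure ({x, y} : Set M) := by
    rw [closure_le]
    rintro _ ⟨k, rfl⟩
    have hx' : x ∈ closure ({x, y} : Set M) := subset_closure (by simp)
    have hy' : y ∈ closure ({x, y} : Set M) := subset_closure (by simp)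
    exact mul_mem (mul_mem (zpow_mem hx' k) hy') (zpow_mem hx' (-k))
  by_cases hxS : x ∈ closure S
  · have h1 := hcom y (subset_closure hyS) x hxS
    rw [hzx] at h1
    have h2 : Commute x y := by
      have := h1.inv_right
      rw [inv_inv] at this
      exact this.symm
    exact pg_comm hxp hyp h2
  · have hlt : closure S < closure ({x, y} : Set M) := by
      refine lt_of_le_of_ne hSle ?_
      intro h
      exact hxS (h ▸ subset_closure (by simp))
    have hcard : Nat.card (closure S) < n := by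
      rw [← hn]
      exact Set.ncard_lt_ncard (show ((closure S : Subgroup M) : Set M) ⊂
        ((closure ({x, y} : Set M) : Subgroup M) : Set M) from hlt) (Set.toFinite _)
    have hSD : ∀ g ∈ S, g ∈ DD p E := by
      rintro _ ⟨k, rfl⟩
      have := DD_conj (p := p) hEc y hy (x ^ k)
      rwa [← zpow_neg] at this
    -- Baer-Suzuki inside closure S
    set K : Set (closure S) := {g | (g : M) ∈ DD p E} with hK
    have hKp : IsPGroup p (closure K) := by
      refine bs_set ?_ ?_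
      · intro g hg h
        exact DD_conj hEc _ hg _
      · intro g hg h hh
        have h1 : closure ({(g : M), (h : M)} : Set M) ≤ closure S := by
          rw [closure_le]
          rintro a (rfl | ha)
          · exact g.2
          · rw [Set.mem_singleton_iff] at ha
            subst ha
            exact h.2
        have h2 : Nat.card (closure ({(g : M), (h : M)} : Set M)) < n :=
          lt_of_le_of_lt (Subgroup.card_le_of_le h1) hcard
        have h3 := ih _ h2 g hg h hh rfl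
        refine (h3.comap_of_injective (closure S).subtype (Subgroup.subtype_injective _)).to_le ?_
        rw [closure_le]
        rintro a (rfl | ha)
        · exact subset_closure (by simp)
        · rw [Set.mem_singleton_iff] at ha
          subst ha
          exact subset_closure (by simp)
    have hSp : IsPGroup p (closure S) := by
      refine (hKp.map (closure S).subtype).to_le ?_
      rw [closure_le]
      intro g hg
      exact ⟨⟨g, subset_closure hg⟩, subset_closure (hSD g hg), rfl⟩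
    have hxz : IsPGroup p (zpowers x) := by
      rintro ⟨g, k, rfl⟩
      refine ⟨1, Subtype.ext ?_⟩
      show (x ^ k) ^ p ^ 1 = 1
      rw [pow_one, ← zpow_natCast, ← zpow_mul, mul_comm, zpow_mul, zpow_natCast, hxp, one_zpow]
    have hnorm : zpowers x ≤ normalizer (closure S : Set M) := by
      rw [zpowers_le]
      refine Pool.Agent.H23.BS.norm_closure ?_ ?_
      · rintro _ ⟨k, rfl⟩
        refine ⟨k + 1, ?_⟩
        rw [neg_add, zpow_add, zpow_add, zpow_neg_one, zpow_one]
        have e1 : x ^ k * x = x * x ^ k := ((Commute.refl x).zpow_left k).eq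
        have e2 : x ^ (-k) * x⁻¹ = x ^ (-k) * x⁻¹ := rfl
        rw [e1]
        group
      · rintro _ ⟨k, rfl⟩
        refine ⟨k - 1, ?_⟩
        have e1 : x⁻¹ * (x ^ k * y * x ^ (-k)) * x = (x⁻¹ * x ^ k) * y * (x ^ (-k) * x) := by group
        rw [e1]
        have e2 : x⁻¹ * x ^ k = x ^ (k - 1) := by
          rw [← zpow_neg_one, ← zpow_add]; congr 1; ring
        have e3 : x ^ (-k) * x = x ^ (-(k - 1)) := by
          nth_rewrite 2 [← zpow_one x]
          rw [← zpow_add]; congr 1; ring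
        rw [e2, e3]
    have hfin : IsPGroup p (zpowers x ⊔ closure S : Subgroup M) :=
      hxz.to_sup_of_normal_right' hSp hnorm
    refine hfin.to_le ?_
    rw [closure_le]
    rintro a (rfl | ha)
    · exact (le_sup_left : zpowers a ≤ _) (mem_zpowers a)
    · rw [Set.mem_singleton_iff] at ha
      subst ha
      exact (le_sup_right : closure S ≤ _) (subset_closure hyS)

/-- **the claim** -/
theorem closure_isPGroup (hp2 : p ≠ 2) (E : Set M) (hE : ∀ w ∈ E, w * w = 1)
    (hEc : ∀ g : M, ∀ w ∈ E, g * w * g⁻¹ ∈ E) :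
    IsPGroup p (closure {x : M | x ^ p = 1 ∧ (∃ z ∈ E, z * x * z = x⁻¹) ∧
      ∀ w ∈ E, Commute x (w * x * w)}) :=
  bs_set (K := DD p E) (DD_conj hEc) (fun x hx y hy => pairD hp2 hE hEc _ x hx y hy rfl)

end Pool.Agent.H40.AJ
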